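import Pool.Agent.SqF9.MeanB
import Pool.Agent.SqF9L.ConvI
import Pool.Agent.SqF9L.One
import Pool.Agent.SqF9L.Osc

open MeasureTheory Set Pool.Agent.SqFull

namespace Pool.Agent.Results.MP_2396ec_nt.FirstMeanRH

/-- The integral of `Δ` over `[1, X]` is `O(X^(1+κ+ε))` for every `ε > 0`. -/
def Mean (κ : ℝ) : Prop := ∀ ε : ℝ, 0 < ε → ∃ C : ℝ, ∀ X : ℝ, 1 ≤ X →
  |∫ x in (1:ℝ)..X, Delta x| ≤ C * X ^ (1 + κ + ε)

/-- The upper half of `Mean κ`. -/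
def MeanAbove (κ : ℝ) : Prop := ∀ ε : ℝ, 0 < ε → ∃ C : ℝ, ∀ X : ℝ, 1 ≤ X →
  ∫ x in (1:ℝ)..X, Delta x ≤ C * X ^ (1 + κ + ε)

/-- The lower half of `Mean κ`. -/
def MeanBelow (κ : ℝ) : Prop := ∀ ε : ℝ, 0 < ε → ∃ C : ℝ, ∀ X : ℝ, 1 ≤ X →
  -(C * X ^ (1 + κ + ε)) ≤ ∫ x in (1:ℝ)..X, Delta x

lemma mean_above {κ : ℝ} (h : Mean κ) : MeanAbove κ := fun ε hε => by
  obtain ⟨C, hC⟩ := h ε hε
  exact ⟨C, fun X hX => (le_abs_self _).trans (hC X hX)⟩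

lemma mean_below {κ : ℝ} (h : Mean κ) : MeanBelow κ := fun ε hε => by
  obtain ⟨C, hC⟩ := h ε hε
  exact ⟨C, fun X hX => (abs_le.mp (hC X hX)).1⟩

lemma mean_of_rh (hRH : RiemannHypothesis) : Mean (1 / 12) := by
  have h : Mean (1 / 2 / 6) := Pool.Agent.SqF9.mn_of_nzb le_rfl (by norm_num) (fun s h1 h2 h0 => by
    have h3 := hRH s h0 (by
      rintro ⟨n, rfl⟩
      have h4 : (-2 * ((n:ℂ) + 1)).re = -2 * ((n:ℝ) + 1) := by simp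
      rw [h4] at h1
      have : (0:ℝ) ≤ n := n.cast_nonneg
      linarith) (by rintro rfl; simp at h2)
    linarith)
  have e : (1 / 2 / 6 : ℝ) = 1 / 12 := by norm_num
  rwa [e] at h

/-- The Riemann hypothesis holds if and only if the first mean of the error term for square-full
integers has exponent `1/12`, and already an upper bound or a lower bound with this exponent is
enough. For every smaller exponent the mean is exceeded with both signs. -/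
theorem result :
    (RiemannHypothesis ↔ Mean (1 / 12)) ∧
    (RiemannHypothesis ↔ MeanAbove (1 / 12)) ∧
    (RiemannHypothesis ↔ MeanBelow (1 / 12)) ∧
    (∀ κ : ℝ, κ < 1 / 12 → ¬ Mean κ) ∧
    (∀ κ : ℝ, κ < 1 / 12 → ∀ X₀ : ℝ,
      (∃ X : ℝ, X₀ ≤ X ∧ X ^ (1 + κ) < ∫ x in (1:ℝ)..X, Delta x) ∧
      ∃ X : ℝ, X₀ ≤ X ∧ ∫ x in (1:ℝ)..X, Delta x < -X ^ (1 + κ)) ∧
    (∀ b : ℝ, 1 / 2 ≤ b → b < 1 →
      (∀ s : ℂ, b < s.re → s.re < 1 → riemannZeta s ≠ 0) → Mean (b / 6)) ∧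
    (∀ b : ℝ, 1 / 2 ≤ b → b ≤ 3 / 5 → MeanAbove (b / 6) ∨ MeanBelow (b / 6) →
      ∀ s : ℂ, b < s.re → s.re < 1 → riemannZeta s = 0 →
        2 * (1 - b) ≤ s.re ∧ riemannZeta (s / 2) = 0) := by
  have hU : ∀ κ : ℝ, 0 ≤ κ → MeanAbove κ → SqF9L.IN κ := fun κ h0 h => SqF9L.in_of_upper h0 h
  have hL : ∀ κ : ℝ, 0 ≤ κ → MeanBelow κ → SqF9L.IN κ := fun κ h0 h => SqF9L.in_of_lower h0 h
  have h12 : (0:ℝ) ≤ 1 / 12 := by norm_num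
  refine ⟨⟨mean_of_rh, fun h => SqF9L.rh_of_in (hU _ h12 (mean_above h))⟩,
    ⟨fun h => mean_above (mean_of_rh h), fun h => SqF9L.rh_of_in (hU _ h12 h)⟩,
    ⟨fun h => mean_below (mean_of_rh h), fun h => SqF9L.rh_of_in (hL _ h12 h)⟩,
    fun κ hκ => Pool.Agent.SqF9.not_mn hκ,
    fun κ hκ X₀ => ⟨?_, ?_⟩,
    fun b hb0 hb1 h => Pool.Agent.SqF9.mn_of_nzb hb0 hb1 h, fun b hb0 hb1 h => ?_⟩
  · obtain ⟨X, h1, -, h2⟩ := SqF9L.osc_upper hκ X₀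
    exact ⟨X, h1, h2⟩
  · obtain ⟨X, h1, -, h2⟩ := SqF9L.osc_lower hκ X₀
    exact ⟨X, h1, h2⟩
  · refine SqF9L.zeros_of_in_strip hb0 hb1 ?_
    rcases h with h | h
    · exact hU _ (by linarith) h
    · exact hL _ (by linarith) h

end Pool.Agent.Results.MP_2396ec_nt.FirstMeanRH
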