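import Pool.Agent.SqF9.Main3
import Pool.Agent.SqF9.Conv3
import Pool.Agent.SqF9.CS
import Pool.Agent.SqF9.Low
import Pool.Agent.SqF9M.Side

open MeasureTheory Set Pool.Agent.SqFull

namespace Pool.Agent.Results.MP_2396ec_nt.MeanSquareExponent

/-- `ζ` has no zeros to the right of `b`. -/
def ZeroFree (b : ℝ) : Prop := ∀ s : ℂ, b < s.re → s.re < 1 → riemannZeta s ≠ 0

/-- `Δ(x) ≤ C x^(κ+ε)` for every `ε > 0`: the upper half of a pointwise bound. -/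
def PointAbove (κ : ℝ) : Prop := ∀ ε : ℝ, 0 < ε → ∃ C : ℝ, ∀ x : ℝ, 1 ≤ x →
  Delta x ≤ C * x ^ (κ + ε)

/-- `Δ(x) ≥ -C x^(κ+ε)` for every `ε > 0`: the lower half. -/
def PointBelow (κ : ℝ) : Prop := ∀ ε : ℝ, 0 < ε → ∃ C : ℝ, ∀ x : ℝ, 1 ≤ x →
  -(C * x ^ (κ + ε)) ≤ Delta x

/-- The integral of `Δ²` over `[1, X]` is `O(X^(1+2κ+ε))` for every `ε > 0`. -/
def MeanSquare (κ : ℝ) : Prop := ∀ ε : ℝ, 0 < ε → ∃ C : ℝ, ∀ X : ℝ, 1 ≤ X →
  ∫ x in (1:ℝ)..X, Delta x ^ 2 ≤ C * X ^ (1 + 2 * κ + ε)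

/-- The integral of `Δ` over `[1, X]` is at most `C X^(1+κ+ε)` for every `ε > 0`. -/
def MeanAbove (κ : ℝ) : Prop := ∀ ε : ℝ, 0 < ε → ∃ C : ℝ, ∀ X : ℝ, 1 ≤ X →
  ∫ x in (1:ℝ)..X, Delta x ≤ C * X ^ (1 + κ + ε)

/-- The integral of `Δ` over `[1, X]` is at least `-C X^(1+κ+ε)` for every `ε > 0`. -/
def MeanBelow (κ : ℝ) : Prop := ∀ ε : ℝ, 0 < ε → ∃ C : ℝ, ∀ X : ℝ, 1 ≤ X →
  -(C * X ^ (1 + κ + ε)) ≤ ∫ x in (1:ℝ)..X, Delta x

/-- The mean square exponent of the error term for square-full integers is at most `b/6` if and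
(up to zeros far to the right) only if `ζ` has no zeros to the right of `b`; a one-sided bound
for the first mean, or for `Δ` itself, is enough for the converse. -/
theorem result :
    (RiemannHypothesis → ∀ b : ℝ, 1 / 2 ≤ b → ZeroFree b) ∧
    (∀ b : ℝ, 3 / 5 ≤ b → b ≤ 6 / 7 → ZeroFree b → MeanSquare (b / 6) ∧
      ∀ ε δ : ℝ, 0 < ε → ε ≤ 1 / 2 → 0 < δ → ∃ C : ℝ, ∀ X : ℝ, 1 ≤ X →
        (volume {x : ℝ | 1 ≤ x ∧ x ≤ X ∧ x ^ (b / 6 + ε) < |Delta x|}).toReal ≤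
          C * X ^ (1 - 2 * ε + δ)) ∧
    (∀ b : ℝ, b < 3 / 5 → ZeroFree b → ∀ κ : ℝ, κ < 1 / 10 → ¬ MeanSquare κ) ∧
    (∀ b : ℝ, 3 / 5 ≤ b → b < 1 → MeanAbove (b / 6) ∨ MeanBelow (b / 6) →
      (∀ s : ℂ, b < s.re → s.re < 1 → riemannZeta s = 0 →
        riemannZeta (s / 2) = 0 ∨ riemannZeta (s / 3) = 0) ∧
      ((∀ s : ℂ, 2 * (1 - b) ≤ s.re → s.re < 1 → riemannZeta s ≠ 0) → ZeroFree b)) ∧
    (MeanAbove (1 / 10) ∨ MeanBelow (1 / 10) →
      ∀ s : ℂ, 3 / 5 < s.re → s.re < 1 → riemannZeta s = 0 →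
        4 / 5 ≤ s.re ∧ riemannZeta (s / 2) = 0) ∧
    (∀ κ : ℝ, 0 ≤ κ → (PointAbove κ → MeanAbove κ) ∧ (PointBelow κ → MeanBelow κ) ∧
      (MeanSquare κ → MeanAbove κ ∧ MeanBelow κ)) := by
  refine ⟨fun hRH b hb s h1 h2 h0 => ?_, fun b hb hb' h => ?_,
    fun b hb h κ hκ => Pool.Agent.SqF9.mst_sharp hb h hκ,
    fun b hb hb1 hM => ?_, fun hM => ?_, fun κ hκ =>
      ⟨fun h => Pool.Agent.SqF9M.above_mean hκ h, fun h => Pool.Agent.SqF9M.below_mean hκ h,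
        fun h => ?_⟩⟩
  · have h3 := hRH s h0 (by
      rintro ⟨n, rfl⟩
      have h4 : (-2 * ((n:ℂ) + 1)).re = -2 * ((n:ℝ) + 1) := by simp
      rw [h4] at h1
      have : (0:ℝ) ≤ n := n.cast_nonneg
      linarith) (by rintro rfl; simp at h2)
    linarith
  · have hMS : MeanSquare (b / 6) := Pool.Agent.SqF9.ms_of_NZb (b := b) (τ := b / 6)
      (by linarith) (by linarith) h (by linarith) le_rfl (by linarith)
    exact ⟨hMS, fun ε δ _ h1 h2 => Pool.Agent.SqF9.exc2_of_mst hMS (by linarith) h1 h2⟩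
  · have hI : Pool.Agent.SqF9L.IN (b / 6) := by
      rcases hM with h | h
      · exact Pool.Agent.SqF9L.in_of_upper (by linarith) h
      · exact Pool.Agent.SqF9L.in_of_lower (by linarith) h
    refine ⟨fun s h1 h2 h3 => ?_, fun hR s h1 h2 => ?_⟩
    · exact Pool.Agent.SqF9M.halves_of_in hI (by linarith) (by linarith) s (by linarith) h2 h3
    · refine Pool.Agent.SqF9L.nzb_of_in hI (by linarith) (fun s h3 h4 => hR s ?_ h4) s ?_ h2
      · linarith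
      · linarith
  · have hI : Pool.Agent.SqF9L.IN (1 / 10) := by
      rcases hM with h | h
      · exact Pool.Agent.SqF9L.in_of_upper (by norm_num) h
      · exact Pool.Agent.SqF9L.in_of_lower (by norm_num) h
    exact Pool.Agent.SqF9M.zeros_of_in hI
  · have h2 := Pool.Agent.SqF9.mean_of_mst h
    constructor
    · intro ε hε
      obtain ⟨C, hC⟩ := h2 ε hε
      exact ⟨C, fun X hX => (le_abs_self _).trans (hC X hX)⟩
    · intro ε hε
      obtain ⟨C, hC⟩ := h2 ε hε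
      exact ⟨C, fun X hX => by
        have h3 := (neg_le_abs _).trans (hC X hX)
        linarith⟩

end Pool.Agent.Results.MP_2396ec_nt.MeanSquareExponent
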